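import Pool.Agent.H629.GC.Stm

set_option autoImplicit false

open MeasureTheory ProbabilityTheory Set Filter
open scoped ENNReal Topology

/-! Project GC, task B3: modification of the fields on a null set. -/

namespace Pool.Agent.H338.GC.B3

open Pool.Agent.H629.GC

theorem t_B3 : S_B3 := by
  intro Ω T _ _ P hP X hm hc hind
  classical
  have hall : ∀ᵐ ω ∂P, ∀ j, Continuous fun x => X j x ω := ae_all_iff.2 hc
  obtain ⟨N, hN1, hN2, hN3⟩ : ∃ N : Set Ω, MeasurableSet N ∧ P N = 0 ∧
      ∀ ω, ω ∉ N → ∀ j, Continuous fun x => X j x ω := by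
    refine ⟨toMeasurable P {ω | ¬ ∀ j, Continuous fun x => X j x ω},
      measurableSet_toMeasurable _ _, ?_, ?_⟩
    · rw [measure_toMeasurable]
      exact hall
    · intro ω hω
      by_contra h
      exact hω (subset_toMeasurable _ _ h)
  have hN4 : ∀ᵐ ω ∂P, ω ∉ N := compl_mem_ae_iff.2 hN2
  refine ⟨fun j x ω => if ω ∈ N then 0 else X j x ω, ⟨hP, ?_, ?_, ?_⟩, ?_⟩
  · intro j ω
    by_cases h : ω ∈ N
    · simp only [if_pos h]
      exact continuous_const
    · simp only [if_neg h]
      exact hN3 ω h j
  · intro j x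
    exact Measurable.ite hN1 measurable_const (hm j x)
  · refine hind.congr ?_
    intro j
    filter_upwards [hN4] with ω hω
    funext x
    simp only [if_neg hω]
  · filter_upwards [hN4] with ω hω j x
    simp only [if_neg hω]

end Pool.Agent.H338.GC.B3
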